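import Mathlib
import Pool.Agent.H292R2.Leh.Defs

/-! Task D of helper292 (Lehmer, discriminant form of Dobrowolski): integrality.  By helper594. -/

open Polynomial

namespace Pool.Agent.H594R2.LehD

open Pool.Agent.H292R2.Leh

theorem resultant_prod_lin {R : Type*} [CommRing R] [IsDomain R] {d : ℕ} (x : Fin d → R) (g : R[X])
    (n : ℕ) (hn : g.natDegree ≤ n) :
    resultant (∏ i, (X - C (x i))) g d n = ∏ i, g.eval (x i) := by
  have hlead : ∏ i ∈ (Finset.univ : Finset (Fin d)), (X - C (x i)).leadingCoeff ≠ 0 := by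
    simp
  have hdeg : (∏ i, (X - C (x i))).natDegree = d := by
    rw [natDegree_prod_of_monic _ _ (fun i _ => monic_X_sub_C (x i))]
    simp
  have h := resultant_prod_left Finset.univ (fun i => X - C (x i)) g n hlead hn
  rw [hdeg] at h
  rw [h]
  refine Finset.prod_congr rfl fun i _ => ?_
  rw [natDegree_X_sub_C]
  exact resultant_X_sub_C_left g n (x i) hn

theorem det_int (f : ℤ[X]) (_hm : f.Monic) {d : ℕ} (x : Fin d → ℂ) (hx : Enum f x) (g : ℤ[X]) :
    ∃ n : ℤ, ∏ i, (toC g).eval (x i) = n := by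
  refine ⟨resultant f g d (toC g).natDegree, ?_⟩
  have h := resultant_map_map f g d (toC g).natDegree (Int.castRingHom ℂ)
  have hx' : f.map (Int.castRingHom ℂ) = ∏ i, (X - C (x i)) := hx
  rw [hx'] at h
  have h2 := resultant_prod_lin x (toC g) _ le_rfl
  rw [← h2]
  exact h

theorem pow_poly (f : ℤ[X]) (_hm : f.Monic) {d : ℕ} (x : Fin d → ℂ) (hx : Enum f x) (q : ℕ) :
    ∃ g : ℤ[X], g.Monic ∧ Enum g (fun i => x i ^ q) := by
  let φ : ℤ[X] →+* ℂ[X] := mapRingHom (Int.castRingHom ℂ)
  let F : ℤ[X][X] := f.map C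
  let G : ℤ[X][X] := C X - X ^ q
  have hF : F.map φ = ∏ i, (X - C (C (x i))) := by
    have h1 : F.map φ = (toC f).map C := by
      simp only [F, φ, toC, Polynomial.map_map]
      congr 1
      ext; simp
    rw [h1, show toC f = ∏ i, (X - C (x i)) from hx, Polynomial.map_prod]
    simp
  have hG : G.map φ = C X - X ^ q := by
    simp [G, φ]
  have hnd : ((C X - X ^ q : ℂ[X][X])).natDegree ≤ q := by
    have h1 : (C X : ℂ[X][X]).natDegree ≤ q := by simp
    have h2 : (X ^ q : ℂ[X][X]).natDegree ≤ q := by simp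
    exact (natDegree_sub_le _ _).trans (max_le h1 h2)
  have key : (resultant F G d q).map (Int.castRingHom ℂ) = ∏ i, (X - C (x i ^ q) : ℂ[X]) := by
    have h := resultant_map_map F G d q φ
    rw [hF, hG, resultant_prod_lin (fun i => C (x i)) _ q hnd] at h
    have h2 : φ (resultant F G d q) = (resultant F G d q).map (Int.castRingHom ℂ) := rfl
    rw [← h2, ← h]
    refine Finset.prod_congr rfl fun i _ => ?_
    simp
  refine ⟨resultant F G d q, ?_, key⟩
  refine monic_of_injective (f := Int.castRingHom ℂ) (RingHom.injective_int _) ?_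
  rw [key]
  exact monic_prod_of_monic _ _ (fun i _ => monic_X_sub_C _)

theorem dprod_eq {d : ℕ} (x : Fin d → ℂ) : dprod x = ‖(Matrix.vandermonde x).det‖ ^ 2 := by
  rw [Matrix.det_vandermonde, norm_prod]
  simp only [norm_prod]
  have h1 : ∀ i : Fin d, ∏ j ∈ Finset.univ.erase i, ‖x i - x j‖ =
      (∏ j ∈ Finset.Ioi i, ‖x j - x i‖) * ∏ j ∈ Finset.Iio i, ‖x i - x j‖ := by
    intro i
    have h2 : Finset.univ.erase i = Finset.Ioi i ∪ Finset.Iio i := by
      ext j
      simp only [Finset.mem_erase, Finset.mem_univ, and_true, Finset.mem_union, Finset.mem_Ioi,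
        Finset.mem_Iio]
      constructor
      · intro h; exact (lt_or_gt_of_ne h).symm
      · rintro (h | h)
        · exact ne_of_gt h
        · exact ne_of_lt h
    have h3 : Disjoint (Finset.Ioi i) (Finset.Iio i) := by
      rw [Finset.disjoint_left]
      intro j hj hj'
      rw [Finset.mem_Ioi] at hj
      rw [Finset.mem_Iio] at hj'
      exact lt_asymm hj hj'
    rw [h2, Finset.prod_union h3]
    congr 1
    exact Finset.prod_congr rfl fun j _ => norm_sub_rev _ _
  rw [dprod]
  simp only [h1]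
  rw [Finset.prod_mul_distrib, pow_two]
  congr 1
  rw [Finset.prod_comm' (s' := fun j => Finset.Ioi j) (t' := Finset.univ)]
  intro i j
  simp

theorem dprod_pow_ge (f : ℤ[X]) (hm : f.Monic) {d : ℕ} (x : Fin d → ℂ) (hx : Enum f x) (p : ℕ)
    (hinj : Function.Injective (fun i => x i ^ p)) :
    dprod x ≤ dprod (fun i => x i ^ p) := by
  have hx' : toC f = ∏ i, (X - C (x i)) := hx
  have hd : f.natDegree = d := by
    have h1 : (toC f).natDegree = f.natDegree := hm.natDegree_map _
    rw [← h1, hx', natDegree_prod_of_monic _ _ (fun i _ => monic_X_sub_C (x i))]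
    simp
  have hroot : ∀ i, (toC f).eval (x i) = 0 := by
    intro i
    rw [hx', eval_prod]
    exact Finset.prod_eq_zero (Finset.mem_univ i) (by simp)
  let P : Matrix (Fin d) (Fin d) ℤ := Matrix.of fun l j => ((X ^ (p * (j : ℕ))) %ₘ f).coeff l
  have hV : Matrix.vandermonde (fun i => x i ^ p) =
      Matrix.vandermonde x * P.map (Int.cast : ℤ → ℂ) := by
    ext i j
    rw [Matrix.vandermonde_apply, Matrix.mul_apply]
    simp only [Matrix.vandermonde_apply, Matrix.map_apply, Matrix.of_apply, P]
    have h1 := congrArg (fun r : ℤ[X] => (toC r).eval (x i))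
      (modByMonic_add_div (X ^ (p * (j : ℕ))) f)
    simp only [toC, Polynomial.map_add, Polynomial.map_mul, eval_add, eval_mul] at h1
    have h2 : (f.map (Int.castRingHom ℂ)).eval (x i) = 0 := hroot i
    rw [h2, zero_mul, add_zero] at h1
    simp only [Polynomial.map_pow, map_X, eval_pow, eval_X] at h1
    rw [← pow_mul, ← h1]
    have h3 : ((X ^ (p * (j : ℕ)) %ₘ f).map (Int.castRingHom ℂ)).natDegree < d ∨ d = 0 := by
      by_cases hd0 : d = 0
      · exact Or.inr hd0
      · left
        refine lt_of_le_of_lt natDegree_map_le ?_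
        have hf1 : f ≠ 1 := by
          intro h
          rw [h] at hd
          simp at hd
          exact hd0 hd.symm
        have := natDegree_modByMonic_lt (X ^ (p * (j : ℕ))) hm hf1
        omega
    rcases h3 with h3 | h3
    · rw [eval_eq_sum_range' h3, Finset.sum_range]
      refine Finset.sum_congr rfl fun l _ => ?_
      rw [coeff_map]
      simp [mul_comm]
    · subst h3
      exact Fin.elim0 i
  have hdet : (Matrix.vandermonde (fun i => x i ^ p)).det =
      (Matrix.vandermonde x).det * ((P.det : ℤ) : ℂ) := by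
    rw [hV, Matrix.det_mul]
    congr 1
    have := (Int.castRingHom ℂ).map_det P
    simp only [eq_intCast] at this
    rw [this]
    rfl
  have hne : P.det ≠ 0 := by
    intro h0
    rw [h0, Int.cast_zero, mul_zero] at hdet
    exact (Matrix.det_vandermonde_ne_zero_iff.mpr hinj) hdet
  have hone : (1 : ℝ) ≤ ‖((P.det : ℤ) : ℂ)‖ := by
    rw [Complex.norm_intCast]
    exact_mod_cast Int.one_le_abs hne
  rw [dprod_eq, dprod_eq, hdet, norm_mul, mul_pow]
  have h4 : (1 : ℝ) ≤ ‖((P.det : ℤ) : ℂ)‖ ^ 2 := one_le_pow₀ hone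
  nlinarith [sq_nonneg ‖(Matrix.vandermonde x).det‖]

end Pool.Agent.H594R2.LehD
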