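import Pool.Agent.H679R2.Mix.Abs

/-!
# Colour mixing of the join with a clique (tasks T7a, T7b of helper679)
-/

namespace Pool.Agent.NPC.Mix.T7

open Relation

variable {W : Type*} {K : Type*}

theorem rc_symm (adj : W → W → Prop) {φ ψ : W → K} (h : Rc adj φ ψ) : Rc adj ψ φ := by
  obtain ⟨h1, h2, v, hv⟩ := h
  exact ⟨h2, h1, v, fun u hu => (hv u hu).symm⟩

theorem rch_symm (adj : W → W → Prop) {φ ψ : W → K} (h : Rch adj φ ψ) : Rch adj ψ φ := by
  induction h with
  | refl => exact ReflTransGen.refl
  | tail _ hbc ih => exact ReflTransGen.head (rc_symm adj hbc) ih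

/-- a proper function as a colouring -/
def toCol {H : SimpleGraph W} {k : ℕ} (φ : W → Fin k) (h : Prp H.Adj φ) : H.Coloring (Fin k) :=
  SimpleGraph.Coloring.mk φ (fun {a b} hab => h a b hab)

@[simp] theorem toCol_apply {H : SimpleGraph W} {k : ℕ} (φ : W → Fin k) (h : Prp H.Adj φ)
    (w : W) : toCol φ h w = φ w := rfl

theorem prp_col {H : SimpleGraph W} {k : ℕ} (α : H.Coloring (Fin k)) :
    Prp H.Adj (fun w => α w) := fun _ _ hab => α.valid hab

theorem rch_prp {adj : W → W → Prop} {φ ψ : W → K} (h : Rch adj φ ψ) (hφ : Prp adj φ) :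
    Prp adj ψ := by
  induction h with
  | refl => exact hφ
  | tail _ hbc _ => exact hbc.2.1

theorem toCol_eq {H : SimpleGraph W} {k : ℕ} (α : H.Coloring (Fin k)) (φ : W → Fin k)
    (h : Prp H.Adj φ) (he : ∀ w, α w = φ w) : α = toCol φ h := by
  apply DFunLike.ext
  intro w
  exact he w

theorem reach_of_rch {H : SimpleGraph W} {k : ℕ} {φ ψ : W → Fin k} (h : Rch H.Adj φ ψ)
    (hφ : Prp H.Adj φ) (hψ : Prp H.Adj ψ) :
    (colGraph H k).Reachable (toCol φ hφ) (toCol ψ hψ) := by
  induction h with
  | refl => exact SimpleGraph.Reachable.refl _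
  | @tail b c hab hbc ih =>
    have h1 := ih hbc.1
    by_cases hne : b = c
    · subst hne; exact h1
    · refine h1.trans (SimpleGraph.Adj.reachable ?_)
      obtain ⟨_, _, v, hv⟩ := hbc
      refine ⟨v, ?_, fun u hu => ?_⟩
      · intro hc
        apply hne
        funext u
        by_cases hu : u = v
        · subst hu; exact hc
        · exact (hv u hu).symm
      · exact (hv u hu).symm

theorem rch_of_reach {H : SimpleGraph W} {k : ℕ} {α β : H.Coloring (Fin k)}
    (h : (colGraph H k).Reachable α β) : Rch H.Adj (fun w => α w) (fun w => β w) := by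
  rw [SimpleGraph.reachable_iff_reflTransGen] at h
  induction h with
  | refl => exact ReflTransGen.refl
  | tail _ hbc ih =>
    refine ih.tail ⟨prp_col _, prp_col _, ?_⟩
    obtain ⟨v, _, hv⟩ := hbc
    exact ⟨v, fun u hu => (hv u hu).symm⟩

theorem mixing_iff {H : SimpleGraph W} {k : ℕ} :
    IsMixing H k ↔ ∀ φ ψ : W → Fin k, Prp H.Adj φ → Prp H.Adj ψ → Rch H.Adj φ ψ := by
  constructor
  · intro h φ ψ hφ hψ
    exact rch_of_reach (h (toCol φ hφ) (toCol ψ hψ))
  · intro h α β
    have := reach_of_rch (h _ _ (prp_col α) (prp_col β)) (prp_col α) (prp_col β)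
    rwa [← toCol_eq α _ (prp_col α) (fun _ => rfl), ← toCol_eq β _ (prp_col β) (fun _ => rfl)]
      at this

/-! ### the negative part -/

theorem join_neg {V : Type} [Fintype V] [DecidableEq V] (G : SimpleGraph V) (side : V → Bool)
    (hside : ∀ u v, G.Adj u v → side u ≠ side v) (k : ℕ) (hk : 4 ≤ k)
    (H : SimpleGraph (V ⊕ Fin (k - 4))) (h1 : ∀ u v, H.Adj (Sum.inl u) (Sum.inl v) ↔ G.Adj u v)
    (h2 : ∀ i j, H.Adj (Sum.inr i) (Sum.inr j) ↔ i ≠ j)
    (h3 : ∀ u i, H.Adj (Sum.inl u) (Sum.inr i))
    (S : Set (V → Fin 4)) (hS : S.Nonempty) (hS1 : ∀ φ ∈ S, Prp G.Adj φ ∧ Function.Surjective φ)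
    (hS2 : ∀ φ ∈ S, ∀ ψ, Rc G.Adj φ ψ → ψ ∈ S) : ¬ IsMixing H k := by
  rw [mixing_iff]
  intro hmix
  obtain ⟨φ₀, hφ₀⟩ := hS
  -- the extension of a 4-colouring
  let C : (V → Fin 4) → (V ⊕ Fin (k - 4)) → Fin k := fun φ =>
    Sum.elim (fun v => Fin.castLE hk (φ v)) (fun i => ⟨4 + i.1, by omega⟩)
  have hCprp : ∀ φ : V → Fin 4, Prp G.Adj φ → Prp H.Adj (C φ) := by
    intro φ hφ a b hab
    rcases a with u | i <;> rcases b with v | j
    · have := hφ u v ((h1 u v).1 hab)
      intro hc
      apply this
      have : (Fin.castLE hk (φ u)).1 = (Fin.castLE hk (φ v)).1 := congrArg Fin.val hc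
      exact Fin.ext this
    · intro hc
      have : (φ u).1 = 4 + j.1 := congrArg Fin.val hc
      omega
    · intro hc
      have : 4 + i.1 = (φ v).1 := congrArg Fin.val hc
      omega
    · intro hc
      have : 4 + i.1 = 4 + j.1 := congrArg Fin.val hc
      exact (h2 i j).1 hab (Fin.ext (by omega))
  have hstd : Prp G.Adj (stdc side) := by
    intro a b hab
    have := hside a b hab
    unfold stdc
    cases ha : side a <;> cases hb : side b <;> simp_all
  have hreach := hmix (C φ₀) (C (stdc side)) (hCprp _ (hS1 _ hφ₀).1) (hCprp _ hstd)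
  have hinv : ∀ c, Rch H.Adj (C φ₀) c → ∃ φ ∈ S, c = C φ := by
    intro c hc
    induction hc with
    | refl => exact ⟨φ₀, hφ₀, rfl⟩
    | @tail b c _ hbc ih =>
      obtain ⟨φ, hφ, rfl⟩ := ih
      obtain ⟨_, hcp, v0, hv0⟩ := hbc
      obtain ⟨hφp, hφs⟩ := hS1 φ hφ
      rcases v0 with v | i
      · -- a vertex of `V` is recoloured
        have hclq : ∀ i, c (Sum.inr i) = ⟨4 + i.1, by omega⟩ := fun i => hv0 _ (by simp)
        have hlt : ∀ u, (c (Sum.inl u)).1 < 4 := by
          intro u
          by_contra hge
          have hlk := (c (Sum.inl u)).2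
          have := hcp _ _ (h3 u ⟨(c (Sum.inl u)).1 - 4, by omega⟩)
          apply this
          rw [hclq]
          apply Fin.ext
          show (c (Sum.inl u)).1 = 4 + ((c (Sum.inl u)).1 - 4)
          omega
        refine ⟨fun u => ⟨(c (Sum.inl u)).1, hlt u⟩, ?_, ?_⟩
        · apply hS2 φ hφ
          refine ⟨hφp, ?_, v, ?_⟩
          · intro a b hab hc'
            apply hcp _ _ ((h1 a b).2 hab)
            have : (c (Sum.inl a)).1 = (c (Sum.inl b)).1 := by simpa using hc'
            exact Fin.ext this
          · intro u hu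
            have : c (Sum.inl u) = C φ (Sum.inl u) := hv0 _ (by simpa using hu)
            apply Fin.ext
            show (c (Sum.inl u)).1 = (φ u).1
            rw [this]
            rfl
        · funext w
          rcases w with u | i
          · rfl
          · exact hclq i
      · -- a clique vertex cannot be recoloured
        have hV : ∀ u, c (Sum.inl u) = Fin.castLE hk (φ u) := fun u => hv0 _ (by simp)
        have hclq : ∀ j, j ≠ i → c (Sum.inr j) = ⟨4 + j.1, by omega⟩ := fun j hj =>
          hv0 _ (by simpa using hj)
        have hge : 4 ≤ (c (Sum.inr i)).1 := by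
          by_contra hlt
          obtain ⟨u, hu⟩ := hφs ⟨(c (Sum.inr i)).1, by omega⟩
          apply hcp _ _ (h3 u i)
          rw [hV u]
          apply Fin.ext
          show (φ u).1 = _
          rw [hu]
        have hii : (c (Sum.inr i)).1 = 4 + i.1 := by
          by_contra hne
          have hlk := (c (Sum.inr i)).2
          let j : Fin (k - 4) := ⟨(c (Sum.inr i)).1 - 4, by omega⟩
          have hji : j ≠ i := by
            intro h
            have : (c (Sum.inr i)).1 - 4 = i.1 := congrArg Fin.val h
            omega
          apply hcp _ _ ((h2 j i).2 hji)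
          rw [hclq j hji]
          apply Fin.ext
          show 4 + ((c (Sum.inr i)).1 - 4) = _
          omega
        refine ⟨φ, hφ, ?_⟩
        funext w
        rcases w with u | j
        · exact hV u
        · by_cases hj : j = i
          · subst hj
            exact Fin.ext hii
          · exact hclq j hj
  obtain ⟨φ, hφ, he⟩ := hinv _ hreach
  obtain ⟨u, hu⟩ := (hS1 φ hφ).2 2
  have h4 : (C (stdc side) (Sum.inl u)).1 = (C φ (Sum.inl u)).1 := by rw [he]
  have h5 : (stdc side u).1 = (φ u).1 := h4
  rw [hu] at h5
  unfold stdc at h5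
  split_ifs at h5 <;> simp at h5

/-! ### isomorphisms -/

theorem rch_map {V₁ V₂ : Type*} {adj₁ : V₁ → V₁ → Prop} {adj₂ : V₂ → V₂ → Prop} (e : V₁ ≃ V₂)
    (he : ∀ a b, adj₂ (e a) (e b) ↔ adj₁ a b) {φ ψ : V₂ → K} (h : Rch adj₂ φ ψ) :
    Rch adj₁ (fun v => φ (e v)) (fun v => ψ (e v)) := by
  refine ReflTransGen.lift (fun (φ : V₂ → K) (v : V₁) => φ (e v)) ?_ _ _ h
  rintro a b ⟨ha, hb, v, hv⟩
  refine ⟨fun x y hxy => ha _ _ ((he x y).2 hxy), fun x y hxy => hb _ _ ((he x y).2 hxy),
    e.symm v, ?_⟩
  intro u hu
  apply hv
  intro hc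
  apply hu
  rw [← hc]
  simp

theorem mixing_of_iso {V W : Type} {G : SimpleGraph V} {H : SimpleGraph W} (e : G ≃g H) (k : ℕ)
    (h : IsMixing H k) : IsMixing G k := by
  rw [mixing_iff] at h ⊢
  intro φ ψ hφ hψ
  have h' := h (fun w => φ (e.symm w)) (fun w => ψ (e.symm w))
    (fun a b hab => hφ _ _ (e.symm.map_adj_iff.2 hab))
    (fun a b hab => hψ _ _ (e.symm.map_adj_iff.2 hab))
  have h2 := rch_map (adj₁ := G.Adj) (adj₂ := H.Adj) e.toEquiv
    (fun a b => e.map_adj_iff) h'
  simpa using h2

theorem mixing_iso {V W : Type} {G : SimpleGraph V} {H : SimpleGraph W} (e : G ≃g H) (k : ℕ) :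
    IsMixing G k ↔ IsMixing H k :=
  ⟨mixing_of_iso e.symm k, mixing_of_iso e k⟩

/-! ### the positive part -/

section Inj

variable {O C : Type*} [Fintype O] [DecidableEq O] [Fintype C] [DecidableEq C]

/-- move one object to an unused colour -/
def Stp (f f' : O → C) : Prop :=
  Function.Injective f ∧ ∃ o a, (∀ o', f o' ≠ a) ∧ f' = Function.update f o a

theorem inj_update {f : O → C} (hf : Function.Injective f) {o : O} {a : C}
    (ha : ∀ o', f o' ≠ a) : Function.Injective (Function.update f o a) := by
  intro x y hxy
  by_cases hx : x = o <;> by_cases hy : y = o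
  · rw [hx, hy]
  · subst hx
    rw [Function.update_self, Function.update_of_ne hy] at hxy
    exact absurd hxy.symm (ha y)
  · subst hy
    rw [Function.update_self, Function.update_of_ne hx] at hxy
    exact absurd hxy (ha x)
  · rw [Function.update_of_ne hy, Function.update_of_ne hx] at hxy
    exact hf hxy

theorem exists_spare (hc : Fintype.card O < Fintype.card C) (f : O → C) :
    ∃ a, ∀ o, f o ≠ a := by
  by_contra h
  push Not at h
  have : Function.Surjective f := fun a => h a
  have := Fintype.card_le_of_surjective f this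
  omega

theorem stp_all (hc : Fintype.card O < Fintype.card C) (g : O → C) (hg : Function.Injective g) :
    ∀ (n : ℕ) (f : O → C), Function.Injective f →
      (Finset.univ.filter (fun o => f o ≠ g o)).card = n → ReflTransGen Stp f g := by
  intro n
  induction n using Nat.strong_induction_on with
  | _ n ih =>
    intro f hf hn
    by_cases h0 : ∀ o, f o = g o
    · have : f = g := funext h0
      rw [this]
    · push Not at h0
      obtain ⟨o, ho⟩ := h0
      by_cases hA : ∃ o, f o ≠ g o ∧ ∀ o', f o' ≠ g o
      · obtain ⟨o, ho, hun⟩ := hA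
        have hinj := inj_update (o := o) hf hun
        refine ReflTransGen.head ⟨hf, o, g o, hun, rfl⟩ ?_
        refine ih _ ?_ _ hinj rfl
        rw [← hn]
        apply Finset.card_lt_card
        rw [Finset.ssubset_iff_of_subset]
        · refine ⟨o, by simpa using ho, by simp⟩
        · intro x hx
          simp only [Finset.mem_filter, Finset.mem_univ, true_and] at hx ⊢
          by_cases hxo : x = o
          · subst hxo; exact ho
          · rwa [Function.update_of_ne hxo] at hx
      · push Not at hA
        obtain ⟨o', ho'⟩ := hA o ho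
        have hne : o' ≠ o := by
          intro h; rw [h] at ho'; exact ho ho'
        obtain ⟨s, hs⟩ := exists_spare hc f
        have hinj1 := inj_update (o := o') hf hs
        have hun2 : ∀ x, Function.update f o' s x ≠ g o := by
          intro x
          by_cases hx : x = o'
          · subst hx
            rw [Function.update_self]
            intro h
            exact hs x (by rw [ho', h])
          · rw [Function.update_of_ne hx]
            intro h
            exact hx (hf (by rw [h, ho']))
        have hinj2 := inj_update (o := o) hinj1 hun2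
        refine ReflTransGen.head ⟨hf, o', s, hs, rfl⟩ ?_
        refine ReflTransGen.head ⟨hinj1, o, g o, hun2, rfl⟩ ?_
        refine ih _ ?_ _ hinj2 rfl
        rw [← hn]
        apply Finset.card_lt_card
        rw [Finset.ssubset_iff_of_subset]
        · refine ⟨o, by simpa using ho, by simp⟩
        · intro x hx
          simp only [Finset.mem_filter, Finset.mem_univ, true_and] at hx ⊢
          by_cases hxo : x = o
          · subst hxo; exact ho
          · rw [Function.update_of_ne hxo] at hx
            by_cases hxo' : x = o'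
            · subst hxo'
              intro h
              exact hne (hg (by rw [← h, ho']))
            · rwa [Function.update_of_ne hxo'] at hx

end Inj

theorem join_pos {V : Type} [Fintype V] [DecidableEq V] (G : SimpleGraph V) (side : V → Bool)
    (hside : ∀ u v, G.Adj u v → side u ≠ side v) (k : ℕ) (hk : 4 ≤ k)
    (H : SimpleGraph (V ⊕ Fin (k - 4))) (h1 : ∀ u v, H.Adj (Sum.inl u) (Sum.inl v) ↔ G.Adj u v)
    (h2 : ∀ i j, H.Adj (Sum.inr i) (Sum.inr j) ↔ i ≠ j)
    (h3 : ∀ u i, H.Adj (Sum.inl u) (Sum.inr i))
    (hpos : ∀ φ : V → Fin 4, Prp G.Adj φ → Rch G.Adj φ (stdc side)) : IsMixing H k := by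
  rw [mixing_iff]
  -- contracted colourings
  let D : ((Fin (k - 4)) ⊕ Bool → Fin k) → (V ⊕ Fin (k - 4)) → Fin k := fun f =>
    Sum.elim (fun u => f (Sum.inr (side u))) (fun i => f (Sum.inl i))
  -- generic properness
  have hprp : ∀ (p : V → Fin k) (q : Fin (k - 4) → Fin k), (∀ u v, G.Adj u v → p u ≠ p v) →
      Function.Injective q → (∀ u i, p u ≠ q i) → Prp H.Adj (Sum.elim p q) := by
    intro p q hp hq hpq a b hab
    rcases a with u | i <;> rcases b with v | j
    · exact hp u v ((h1 u v).1 hab)
    · exact hpq u j
    · exact (hpq v i).symm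
    · exact fun hc => (h2 i j).1 hab (hq hc)
  -- step 1
  have hA : ∀ c : (V ⊕ Fin (k - 4)) → Fin k, Prp H.Adj c →
      ∃ f : (Fin (k - 4)) ⊕ Bool → Fin k, Function.Injective f ∧ Rch H.Adj c (D f) := by
    intro c hc
    have hq : Function.Injective (fun i => c (Sum.inr i)) := by
      intro i j hij
      by_contra hne
      exact hc _ _ ((h2 i j).2 hne) hij
    let s : Finset (Fin k) := (Finset.univ.image (fun i => c (Sum.inr i)))ᶜ
    have hs : s.card = 4 := by
      rw [Finset.card_compl, Finset.card_image_of_injective _ hq]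
      simp
      omega
    have hms : ∀ x, x ∈ s ↔ ∀ i, c (Sum.inr i) ≠ x := by
      intro x
      simp [s]
    have hVs : ∀ u, c (Sum.inl u) ∈ s := fun u => (hms _).2 fun i => (hc _ _ (h3 u i)).symm
    let e : s ≃ Fin 4 := Finset.equivFinOfCardEq hs
    let φ : V → Fin 4 := fun u => e ⟨c (Sum.inl u), hVs u⟩
    have hφ : Prp G.Adj φ := by
      intro a b hab hab'
      apply hc _ _ ((h1 a b).2 hab)
      have := e.injective hab'
      exact congrArg Subtype.val this
    have hr := hpos φ hφ
    have hesn : ∀ (x : Fin 4) (i : Fin (k - 4)), ((e.symm x : s) : Fin k) ≠ c (Sum.inr i) :=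
      fun x i => ((hms _).1 (e.symm x).2 i).symm
    have hlift : Rch H.Adj (Sum.elim (fun u => ((e.symm (φ u) : s) : Fin k))
        (fun i => c (Sum.inr i)))
        (Sum.elim (fun u => ((e.symm (stdc side u) : s) : Fin k)) (fun i => c (Sum.inr i))) := by
      refine ReflTransGen.lift (fun (φ : V → Fin 4) =>
        (Sum.elim (fun u => ((e.symm (φ u) : s) : Fin k)) (fun i => c (Sum.inr i)) :
          V ⊕ Fin (k - 4) → Fin k)) ?_ _ _ hr
      rintro a b ⟨ha, hb, v, hv⟩
      refine ⟨hprp _ _ ?_ hq (fun u i => hesn _ i), hprp _ _ ?_ hq (fun u i => hesn _ i),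
        Sum.inl v, ?_⟩
      · intro x y hxy hc'
        exact ha x y hxy (e.symm.injective (Subtype.ext hc'))
      · intro x y hxy hc'
        exact hb x y hxy (e.symm.injective (Subtype.ext hc'))
      · intro w hw
        rcases w with u | i
        · have : b u = a u := hv u (by simpa using hw)
          show ((e.symm (b u) : s) : Fin k) = ((e.symm (a u) : s) : Fin k)
          rw [this]
        · rfl
    let f : (Fin (k - 4)) ⊕ Bool → Fin k :=
      Sum.elim (fun i => c (Sum.inr i)) (fun b => ((e.symm (if b = true then 0 else 1) : s) : Fin k))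
    refine ⟨f, ?_, ?_⟩
    · intro x y hxy
      rcases x with i | b <;> rcases y with j | b'
      · exact congrArg _ (hq hxy)
      · exact absurd hxy.symm (hesn _ i)
      · exact absurd hxy (hesn _ j)
      · have : (if b = true then (0 : Fin 4) else 1) = if b' = true then 0 else 1 :=
          e.symm.injective (Subtype.ext hxy)
        cases b <;> cases b' <;> simp_all
    · have e1 : (Sum.elim (fun u => ((e.symm (φ u) : s) : Fin k)) (fun i => c (Sum.inr i)) :
          V ⊕ Fin (k - 4) → Fin k) = c := by
        funext w
        rcases w with u | i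
        · show ((e.symm (e ⟨c (Sum.inl u), hVs u⟩) : s) : Fin k) = _
          rw [Equiv.symm_apply_apply]
        · rfl
      have e2 : (Sum.elim (fun u => ((e.symm (stdc side u) : s) : Fin k))
          (fun i => c (Sum.inr i)) : V ⊕ Fin (k - 4) → Fin k) = D f := by
        funext w
        rcases w with u | i
        · rfl
        · rfl
      rw [e1, e2] at hlift
      exact hlift
  -- step 2
  have hB : ∀ (f : (Fin (k - 4)) ⊕ Bool → Fin k), Function.Injective f → ∀ o a,
      (∀ o', f o' ≠ a) → Rch H.Adj (D f) (D (Function.update f o a)) := by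
    intro f hf o a ha
    have hDp : ∀ g : (Fin (k - 4)) ⊕ Bool → Fin k, Function.Injective g → Prp H.Adj (D g) := by
      intro g hg
      refine hprp _ _ ?_ (fun i j hij => Sum.inl_injective (hg hij)) ?_
      · intro u v huv hc
        exact hside u v huv (Sum.inr_injective (hg hc))
      · intro u i hc
        exact absurd (hg hc) (by simp)
    rcases o with i | b
    · refine ReflTransGen.single ⟨hDp f hf, hDp _ (inj_update hf ha), Sum.inr i, ?_⟩
      intro w hw
      rcases w with u | j
      · show Function.update f (Sum.inl i) a (Sum.inr (side u)) = f (Sum.inr (side u))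
        rw [Function.update_of_ne (by simp)]
      · have hj : j ≠ i := by simpa using hw
        show Function.update f (Sum.inl i) a (Sum.inl j) = f (Sum.inl j)
        rw [Function.update_of_ne (by simpa using hj)]
    · -- recolour the class `b` vertex by vertex
      let E : Finset V → (V ⊕ Fin (k - 4)) → Fin k := fun S =>
        Sum.elim (fun u => if side u = b ∧ u ∈ S then a else f (Sum.inr (side u)))
          (fun i => f (Sum.inl i))
      have hEp : ∀ S, Prp H.Adj (E S) := by
        intro S
        refine hprp _ _ ?_ (fun i j hij => Sum.inl_injective (hf hij)) ?_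
        · intro u v huv
          have hs := hside u v huv
          by_cases hu : side u = b ∧ u ∈ S <;> by_cases hv : side v = b ∧ v ∈ S
          · exact absurd (hu.1.trans hv.1.symm) hs
          · simp only [if_pos hu, if_neg hv]
            exact (ha _).symm
          · simp only [if_neg hu, if_pos hv]
            exact ha _
          · simp only [if_neg hu, if_neg hv]
            intro hc
            exact hs (Sum.inr_injective (hf hc))
        · intro u i
          by_cases hu : side u = b ∧ u ∈ S
          · simp only [if_pos hu]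
            exact (ha _).symm
          · simp only [if_neg hu]
            intro hc
            exact absurd (hf hc) (by simp)
      have hreach : ∀ S : Finset V, Rch H.Adj (E ∅) (E S) := by
        intro S
        induction S using Finset.induction_on with
        | empty => exact ReflTransGen.refl
        | insert x S hx ih =>
          refine ih.tail ⟨hEp S, hEp _, Sum.inl x, ?_⟩
          intro w hw
          rcases w with u | j
          · have hu : u ≠ x := by simpa using hw
            show (if side u = b ∧ u ∈ insert x S then a else f (Sum.inr (side u))) =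
              (if side u = b ∧ u ∈ S then a else f (Sum.inr (side u)))
            simp [hu]
          · rfl
      have e1 : E ∅ = D f := by
        funext w
        rcases w with u | i
        · simp [E, D]
        · rfl
      have e2 : E Finset.univ = D (Function.update f (Sum.inr b) a) := by
        funext w
        rcases w with u | i
        · by_cases hu : side u = b
          · simp [E, D, hu]
          · simp [E, D, hu]
        · simp [E, D]
      have := hreach Finset.univ
      rwa [e1, e2] at this
  -- step 3
  have hCc : Fintype.card ((Fin (k - 4)) ⊕ Bool) < Fintype.card (Fin k) := by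
    simp
    omega
  have hD : ∀ f g : (Fin (k - 4)) ⊕ Bool → Fin k, Function.Injective f → Function.Injective g →
      Rch H.Adj (D f) (D g) := by
    intro f g hf hg
    have h := stp_all hCc g hg _ f hf rfl
    clear hf
    induction h using ReflTransGen.head_induction_on with
    | refl => exact ReflTransGen.refl
    | @head x y hxy _ ih =>
      obtain ⟨hx, o, a, ha, rfl⟩ := hxy
      exact (hB x hx o a ha).trans ih
  intro φ ψ hφ hψ
  obtain ⟨f, hf, hfr⟩ := hA φ hφ
  obtain ⟨g, hg, hgr⟩ := hA ψ hψ
  exact (hfr.trans (hD f g hf hg)).trans (rch_symm _ hgr)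

end Pool.Agent.NPC.Mix.T7
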